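import Pool.Agent.W622.ETG.Lin

/-!
# ELG-ES1: a subspace containing `p ≠ 0` with all `wd e p g ∈ A` lies in a component
-/

set_option autoImplicit false
set_option linter.unusedSectionVars false

namespace Pool.Agent.W597.ELG
open Pool.Agent.W622.ETG Module

section
variable {V : Type} [AddCommGroup V] [Module (ZMod 2) V] [Finite V] {e : V}

/-- members of a family with components live in the sum of the components -/
theorem sp_le_sSup {A : Fam V} {s : Set (DSub V)} (h : Comps e A s) {ω : Frm V} (hω : ω ∈ A) :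
    sp ω ≤ sSup s := by
  have h1 : A ≤ res A (sSup s) := by
    conv_lhs => rw [h.2.1]
    exact iSup₂_le fun X hX => res_mono A (le_sSup hX)
  exact (mem_res'.mp (h1 hω)).2

theorem one_rank {γ : Frm V} (h0 : γ ≠ 0) : 1 ≤ finrank (ZMod 2) (sp γ) := by
  rcases Nat.eq_zero_or_pos (finrank (ZMod 2) (sp γ)) with h | h
  · exact absurd (sp_eq_bot.mp (Submodule.finrank_eq_zero.mp h)) h0
  · exact h

theorem two_rank {γ : Frm V} (hγ : EF e γ) (he : γ e = 0) (h0 : γ ≠ 0) :
    2 ≤ finrank (ZMod 2) (sp γ) := by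
  obtain ⟨k, hk⟩ := hγ.even he
  have := one_rank h0
  omega

theorem rank_add {α β : Frm V} (hα : EF e α) (hβ : EF e β) (h : Disjoint (sp α) (sp β)) :
    finrank (ZMod 2) (sp (α + β)) = finrank (ZMod 2) (sp α) + finrank (ZMod 2) (sp β) := by
  have h2 := Submodule.finrank_sup_add_finrank_inf_eq (sp α) (sp β)
  rw [h.eq_bot, finrank_bot, add_zero] at h2
  rw [sp_add hα hβ h]
  exact h2

/-- a member lies in a component or splits -/
theorem dec (hSPLIT : S_SPLIT) {A : Fam V} {s : Set (DSub V)} {ω : Frm V}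
    (hA : EFam e A) (hs : Comps e A s) (hω : ω ∈ A) (hω0 : ω ≠ 0) :
    (∃ X ∈ s, sp ω ≤ X) ∨ ∃ X ∈ s, ∃ α ∈ A, ∃ β ∈ A, α ≠ 0 ∧ β ≠ 0 ∧ ω = α + β ∧ sp α ≤ X ∧
      Disjoint (sp α) (sp β) := by
  have hfin : {t : Set (DSub V) | t ⊆ s ∧ sp ω ≤ sSup t}.Finite := Set.toFinite _
  have hne : {t : Set (DSub V) | t ⊆ s ∧ sp ω ≤ sSup t}.Nonempty :=
    ⟨s, subset_rfl, sp_le_sSup hs hω⟩
  obtain ⟨t, ht⟩ := hfin.exists_minimal hne
  obtain ⟨⟨hts, htω⟩, hmin⟩ := ht
  have htne : t.Nonempty := by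
    rw [Set.nonempty_iff_ne_empty]
    rintro rfl
    rw [sSup_empty, le_bot_iff] at htω
    exact hω0 (sp_eq_bot.mp htω)
  obtain ⟨X, hX⟩ := htne
  have h4 := (hSPLIT V e A s t hA hs hts).2.2
  have hω' : ω ∈ res A (sSup t) := mem_res'.mpr ⟨hω, htω⟩
  obtain ⟨h5, h6, -⟩ := hSPLIT V e (res A (sSup t)) t {X} (hA.res _) h4
    (Set.singleton_subset_iff.mpr hX)
  rw [h5] at hω'
  obtain ⟨α, hα, β, hβ, hαβ⟩ := Submodule.mem_sup.mp hω'
  have hdis : Disjoint (sp α) (sp β) :=
    h6.mono (mem_res'.mp hα).2 (mem_res'.mp hβ).2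
  have hαX : sp α ≤ X := by
    have := (mem_res'.mp hα).2
    rwa [sSup_singleton] at this
  by_cases hα0 : α = 0
  · exfalso
    subst hα0
    rw [zero_add] at hαβ
    subst hαβ
    have h7 : t \ {X} ∈ {t : Set (DSub V) | t ⊆ s ∧ sp β ≤ sSup t} :=
      ⟨Set.sdiff_subset.trans hts, (mem_res'.mp hβ).2⟩
    have h8 := hmin h7 Set.sdiff_subset hX
    exact h8.2 rfl
  · by_cases hβ0 : β = 0
    · subst hβ0
      rw [add_zero] at hαβ
      subst hαβ
      exact Or.inl ⟨X, hts hX, hαX⟩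
    · exact Or.inr ⟨X, hts hX, α, hα.1.1, β, hβ.1.1, hα0, hβ0, hαβ.symm, hαX, hdis⟩

/-- a member of rank `≤ 3` killing `e` lies in a component -/
theorem small_le (hSPLIT : S_SPLIT) {A : Fam V} {s : Set (DSub V)} {ω : Frm V}
    (hA : EFam e A) (hs : Comps e A s) (hω : ω ∈ A) (hω0 : ω ≠ 0) (he : ω e = 0)
    (h3 : finrank (ZMod 2) (sp ω) < 4) : ∃ X ∈ s, sp ω ≤ X := by
  rcases dec hSPLIT hA hs hω hω0 with h | ⟨X, hX, α, hα, β, hβ, hα0, hβ0, hαβ, hαX, hdis⟩
  · exact h
  · exfalso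
    have h1 : α e + β e = 0 := by
      rw [← LinearMap.add_apply, ← hαβ]
      exact he
    have h2 : α e = β e := add_eq_zero'.mp h1
    have h4 : α e ∈ sp α ⊓ sp β := ⟨⟨e, rfl⟩, by rw [h2]; exact ⟨e, rfl⟩⟩
    rw [hdis.eq_bot, Submodule.mem_bot] at h4
    have h5 := two_rank (hA α hα) h4 hα0
    have h6 := two_rank (hA β hβ) (by rw [← h2]; exact h4) hβ0
    have h7 := rank_add (hA α hα) (hA β hβ) hdis
    rw [← hαβ] at h7
    omega

/-- a member of rank one lies in a component -/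
theorem one_le (hSPLIT : S_SPLIT) {A : Fam V} {s : Set (DSub V)} {ω : Frm V}
    (hA : EFam e A) (hs : Comps e A s) (hω : ω ∈ A) (hω0 : ω ≠ 0)
    (h3 : finrank (ZMod 2) (sp ω) ≤ 1) : ∃ X ∈ s, sp ω ≤ X := by
  rcases dec hSPLIT hA hs hω hω0 with h | ⟨X, hX, α, hα, β, hβ, hα0, hβ0, hαβ, hαX, hdis⟩
  · exact h
  · exfalso
    have h5 := one_rank hα0
    have h6 := one_rank hβ0
    have h7 := rank_add (hA α hα) (hA β hβ) hdis
    rw [← hαβ] at h7
    omega

/-- a form of rank one is a square -/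
theorem rank_one {γ : Frm V} (hγ : EF e γ) (h0 : γ ≠ 0) (h1 : finrank (ZMod 2) (sp γ) ≤ 1) :
    ∃ s : Dl V, s e = 1 ∧ s ∈ sp γ ∧ sp γ = Submodule.span (ZMod 2) {s} := by
  have h2 : finrank (ZMod 2) (sp γ) = 1 := le_antisymm h1 (one_rank h0)
  obtain ⟨⟨s, hs⟩, hs0, hs1⟩ := finrank_eq_one_iff'.mp h2
  have h3 : sp γ ≤ Submodule.span (ZMod 2) {s} := by
    intro f hf
    obtain ⟨c, hc⟩ := hs1 ⟨f, hf⟩
    have : f = c • s := (congrArg Subtype.val hc).symm
    rw [this]
    exact Submodule.smul_mem _ _ (Submodule.mem_span_singleton_self s)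
  obtain ⟨-, h4⟩ := hγ.eq_sqf h3 h0
  refine ⟨s, h4, hs, le_antisymm h3 ?_⟩
  rw [Submodule.span_singleton_le_iff_mem]
  exact hs

/-- a member of rank `≤ 2` lies in a component or is a sum of two squares in different
components -/
theorem small_le2 (hSPLIT : S_SPLIT) {A : Fam V} {s : Set (DSub V)} {ω : Frm V}
    (hA : EFam e A) (hs : Comps e A s) (hω : ω ∈ A) (hω0 : ω ≠ 0)
    (h3 : finrank (ZMod 2) (sp ω) ≤ 2) : (∃ X ∈ s, sp ω ≤ X) ∨
      ∃ X₁ ∈ s, ∃ X₂ ∈ s, X₁ ≠ X₂ ∧ ∃ s₁ ∈ X₁, ∃ s₂ ∈ X₂, s₁ e = 1 ∧ s₂ e = 1 ∧ s₁ ∈ sp ω ∧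
        s₂ ∈ sp ω := by
  rcases dec hSPLIT hA hs hω hω0 with h | ⟨X, hX, α, hα, β, hβ, hα0, hβ0, hαβ, hαX, hdis⟩
  · exact Or.inl h
  · have h5 := one_rank hα0
    have h6 := one_rank hβ0
    have h7 := rank_add (hA α hα) (hA β hβ) hdis
    rw [← hαβ] at h7
    have h8 : sp ω = sp α ⊔ sp β := by
      rw [hαβ]
      exact sp_add (hA α hα) (hA β hβ) hdis
    obtain ⟨Y, hY, hβY⟩ := one_le hSPLIT hA hs hβ hβ0 (by omega)
    by_cases hXY : X = Y
    · subst hXY
      refine Or.inl ⟨X, hX, ?_⟩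
      rw [h8]
      exact sup_le hαX hβY
    · obtain ⟨s₁, a1, a2, -⟩ := rank_one (hA α hα) hα0 (by omega)
      obtain ⟨s₂, b1, b2, -⟩ := rank_one (hA β hβ) hβ0 (by omega)
      refine Or.inr ⟨X, hX, Y, hY, hXY, s₁, hαX a2, s₂, hβY b2, a1, b1, ?_, ?_⟩
      · rw [h8]
        exact Submodule.mem_sup_left a2
      · rw [h8]
        exact Submodule.mem_sup_right b2

end

theorem t_ES1 (hSPLIT : S_SPLIT) : S_ES1 := by
  intro V _ _ _ e A s Z p hA hs hp hpZ hpe hdim hZ
  -- the rank of `wd e p g`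
  have rk : ∀ g : Dl V, g ≠ 0 → g ≠ p → finrank (ZMod 2) (sp (wd e p g)) ≤ 2 ∧ wd e p g ≠ 0 ∧
      p ∈ sp (wd e p g) ∧ g ∈ sp (wd e p g) := by
    intro g hg0 hgp
    have h1 := sp_wd (e := e) hp hg0 hgp
    have hpm : p ∈ sp (wd e p g) := by
      rw [h1]
      exact Submodule.subset_span (by simp)
    refine ⟨?_, ?_, hpm, ?_⟩
    · rw [h1, Submodule.span_insert]
      have h5 := Submodule.finrank_add_le_finrank_add_finrank (Submodule.span (ZMod 2) {p})
        (Submodule.span (ZMod 2) {g})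
      rw [finrank_span_singleton hp, finrank_span_singleton hg0] at h5
      exact h5
    · intro h0
      rw [h0, sp_zero, Submodule.mem_bot] at hpm
      exact hp hpm
    · rw [h1]
      exact Submodule.subset_span (by simp)
  -- the component of `g` with `g e = 0`
  have key : ∀ g ∈ Z, g ≠ 0 → g ≠ p → g e = 0 → ∃ X ∈ s, p ∈ X ∧ g ∈ X := by
    intro g hg hg0 hgp hge
    obtain ⟨h1, h2, h3, h4⟩ := rk g hg0 hgp
    obtain ⟨X, hX, hle⟩ := small_le hSPLIT hA hs (hZ g hg) h2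
      (by rw [wd_e hpe, hge, zero_smul]) (by omega)
    exact ⟨X, hX, hle h3, hle h4⟩
  -- an element outside `⟨p⟩` with value `0` at `e`
  have hex : ∃ g ∈ Z, g ≠ 0 ∧ g ≠ p ∧ g e = 0 := by
    by_contra hc
    push Not at hc
    have hc' : ∀ g ∈ Z, g e = 0 → g ∈ Submodule.span (ZMod 2) {p} := by
      intro g hg hge
      rw [span_one_mem]
      by_contra hcon
      push Not at hcon
      exact hc g hg hcon.1 hcon.2 hge
    by_cases hall : ∀ g ∈ Z, g e = 0
    · have h4 : finrank (ZMod 2) Z ≤ finrank (ZMod 2) (Submodule.span (ZMod 2) {p}) :=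
        Submodule.finrank_mono fun g hg => hc' g hg (hall g hg)
      rw [finrank_span_singleton hp] at h4
      omega
    · push Not at hall
      obtain ⟨g₁, hg₁, hg₁e⟩ := hall
      have h5 : g₁ e = 1 := (z01 _).resolve_left hg₁e
      have h6 : Z ≤ Submodule.span (ZMod 2) {p} ⊔ Submodule.span (ZMod 2) {g₁} := by
        intro g hg
        rcases z01 (g e) with h7 | h7
        · exact Submodule.mem_sup_left (hc' g hg h7)
        · have h8 : g + g₁ ∈ Submodule.span (ZMod 2) {p} :=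
            hc' _ (Submodule.add_mem _ hg hg₁) (by rw [LinearMap.add_apply, h7, h5]; decide)
          have h9 : g = (g + g₁) + g₁ := by rw [add_assoc, vadd, add_zero]
          rw [h9]
          exact Submodule.add_mem _ (Submodule.mem_sup_left h8)
            (Submodule.mem_sup_right (Submodule.mem_span_singleton_self g₁))
      have h7 : finrank (ZMod 2) Z ≤ 2 := by
        refine le_trans (Submodule.finrank_mono h6) ?_
        have h8 := Submodule.finrank_add_le_finrank_add_finrank (Submodule.span (ZMod 2) {p})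
          (Submodule.span (ZMod 2) {g₁})
        rw [finrank_span_singleton hp, finrank_span_singleton (by
          rintro rfl
          simp at h5)] at h8
        exact h8
      rcases hdim with h8 | ⟨-, h8⟩
      · omega
      · exact hg₁e (mem_ann.mp (h8 hg₁))
  obtain ⟨g, hg, hg0, hgp, hge⟩ := hex
  obtain ⟨X, hX, hpX, hgX⟩ := key g hg hg0 hgp hge
  have huniq : ∀ Y ∈ s, p ∈ Y → Y = X := by
    intro Y hY hpY
    by_contra hne
    have hd : Disjoint Y X := hs.1.pairwiseDisjoint hY hX hne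
    have : p ∈ Y ⊓ X := ⟨hpY, hpX⟩
    rw [hd.eq_bot] at this
    exact hp ((Submodule.mem_bot _).mp this)
  refine ⟨X, hX, ?_⟩
  intro f hf
  by_cases hfp : f ∈ Submodule.span (ZMod 2) {p}
  · rcases span_one_mem.mp hfp with rfl | rfl
    · exact X.zero_mem
    · exact hpX
  · rw [span_one_mem] at hfp
    push Not at hfp
    rcases z01 (f e) with hfe | hfe
    · obtain ⟨Y, hY, hpY, hfY⟩ := key f hf hfp.1 hfp.2 hfe
      exact huniq Y hY hpY ▸ hfY
    · obtain ⟨h1, h2, h3, h4⟩ := rk f hfp.1 hfp.2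
      rcases small_le2 hSPLIT hA hs (hZ f hf) h2 h1 with ⟨Y, hY, hle⟩ |
        ⟨X₁, hX₁, X₂, hX₂, hne, s₁, hs₁, s₂, hs₂, e1, e2, m1, m2⟩
      · exact huniq Y hY (hle h3) ▸ hle h4
      · exfalso
        have hnz : ∀ t : Dl V, t e = 1 → t ≠ 0 := by
          rintro t ht rfl
          simp at ht
        have hd12 : Disjoint X₁ X₂ := hs.1.pairwiseDisjoint hX₁ hX₂ hne
        have hs12 : s₁ ≠ s₂ := by
          rintro rfl
          have : s₁ ∈ X₁ ⊓ X₂ := ⟨hs₁, hs₂⟩
          rw [hd12.eq_bot, Submodule.mem_bot] at this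
          exact hnz s₁ e1 this
        rw [sp_wd (e := e) hp hfp.1 hfp.2] at m1 m2
        have hval : ∀ t ∈ Submodule.span (ZMod 2) ({p, f} : Set (Dl V)), t e = 1 →
            t = f ∨ t = p + f := by
          intro t ht hte
          rcases span_pair_mem.mp ht with rfl | rfl | rfl | rfl
          · simp at hte
          · rw [hpe] at hte
            exact absurd hte (by decide)
          · exact Or.inl rfl
          · exact Or.inr rfl
        have hsum : s₁ + s₂ = p := by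
          rcases hval s₁ m1 e1 with h5 | h5 <;> rcases hval s₂ m2 e2 with h6 | h6
          · exact absurd (h5.trans h6.symm) hs12
          · rw [h5, h6, add_comm p f, ← add_assoc, vadd, zero_add]
          · rw [h5, h6, add_assoc, vadd, add_zero]
          · exact absurd (h5.trans h6.symm) hs12
        by_cases hXX : X = X₁
        · have h5 : s₂ = s₁ + p := by rw [← hsum, ← add_assoc, vadd, zero_add]
          have h6 : s₂ ∈ X₁ ⊓ X₂ := by
            refine ⟨?_, hs₂⟩
            rw [h5]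
            exact Submodule.add_mem _ hs₁ (hXX ▸ hpX)
          rw [hd12.eq_bot, Submodule.mem_bot] at h6
          exact hnz s₂ e2 h6
        · have h5 : s₁ = p + s₂ := by rw [← hsum, add_assoc, vadd, add_zero]
          have h6 : s₁ ∈ X₁ ⊓ sSup (s \ {X₁}) := by
            refine ⟨hs₁, ?_⟩
            rw [h5]
            refine Submodule.add_mem _ ?_ ?_
            · have h7 : X ∈ s \ {X₁} := ⟨hX, hXX⟩
              exact le_sSup h7 hpX
            · have h7 : X₂ ∈ s \ {X₁} := ⟨hX₂, fun h => hne h.symm⟩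
              exact le_sSup h7 hs₂
          rw [(hs.1 hX₁).eq_bot, Submodule.mem_bot] at h6
          exact hnz s₁ e1 h6

end Pool.Agent.W597.ELG
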